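import Pool.Agent.helper28.Hex.Defs
import Pool.Agent.helper28.Hex.Small

/-!
# MP_c07608_co: the boards on which Black can force a straight winning chain
-/

namespace Pool.Agent.Results.MP_c07608_co.EqualityCase

open Pool.Agent.Hex in
/-- The trivial lower bound `L(n) ≥ n` for the length of the shortest forced winning chain on the `n × n` Hex
board is attained exactly for `n ≤ 3`. -/
theorem result : ∀ n : ℕ, 1 ≤ n → (minLen n = n ↔ n ≤ 3) :=
  fun _ hn => minLen_eq_iff hn

end Pool.Agent.Results.MP_c07608_co.EqualityCase
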